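import Pool.Agent.H970.RN.Defs
import Pool.Agent.H860.RG.Diff

/-!
# Project RN (helper970): the difference of the bilinear expressions with two cut-offs, `N` components

Port of `Pool/Agent/H860/RG/Diff.lean` to matrices of scores, with Hilbert-Schmidt norms.
-/

set_option autoImplicit false
set_option linter.unusedSectionVars false

noncomputable section

namespace Pool.Agent.H97.RN

open MvPolynomial Pool.Agent.H5R2.ON Pool.Agent.H717R2.ON3 Pool.Agent.H983R2.ONJ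
open Pool.Agent.Y13.QM Pool.Agent.H970.RG Pool.Agent.H970.RN
open Pool.Agent.H860.RG (psi_sub th_supp PP lip2 cst_pos th_lip th_le fth_lip fth_supp NP bl mem_bl
  card_PP card_NP)

section alg

variable {N : ℕ} {V : Type}

theorem supN_mono {A A' : Set V} {F : AlgN N V} (h : SupN A F) (hA : A ⊆ A') : SupN A' F := by
  have h1 : MvPolynomial.supported ℝ {v : V × Fin N | v.1 ∈ A} ≤
      MvPolynomial.supported ℝ {v : V × Fin N | v.1 ∈ A'} :=
    MvPolynomial.supported_mono fun v hv => hA hv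
  exact h1 h

section loc

variable [DecidableEq V]

theorem locN_mono {A A' : Set V} {F : AlgN N V} (h : LocN A F) (hA : A ⊆ A') : LocN A' F :=
  fun x hx i j => h x (fun h' => hx (hA h')) i j

theorem locN_mul {A : Set V} {F H : AlgN N V} (h : LocN A F) (h' : LocN A H) :
    LocN A (F * H) := by
  intro x hx i j
  rw [Derivation.leibniz, h x hx i j, h' x hx i j, smul_zero, smul_zero, add_zero]

theorem locN_sub {A : Set V} {F H : AlgN N V} (h : LocN A F) (h' : LocN A H) :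
    LocN A (F - H) := by
  intro x hx i j
  rw [map_sub, h x hx i j, h' x hx i j, sub_zero]

theorem locN_sum {A : Set V} {α : Type} {s : Finset α} {F : α → AlgN N V}
    (h : ∀ k ∈ s, LocN A (F k)) : LocN A (∑ k ∈ s, F k) := by
  intro x hx i j
  rw [map_sum]
  exact Finset.sum_eq_zero fun k hk => h k hk x hx i j

theorem DN_X (x : V) (i j : Fin N) (v : V × Fin N) : DN x i j (X v) =
    if v.1 = x then
      ((if v.2 = j then X (x, i) else 0) - (if v.2 = i then X (x, j) else 0))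
    else 0 := mkDerivation_X _ _ _

theorem supN_loc {A : Set V} {F : AlgN N V} (h : SupN A F) : LocN A F := by
  intro x hx i j
  have h1 : F ∈ Algebra.adjoin ℝ (X '' {v : V × Fin N | v.1 ∈ A} : Set (AlgN N V)) := h
  have h2 : Set.EqOn (DN x i j) (0 : Derivation ℝ (AlgN N V) (AlgN N V))
      (X '' {v : V × Fin N | v.1 ∈ A}) := by
    rintro _ ⟨v, hv, rfl⟩
    rw [DN_X, if_neg (fun e : v.1 = x => hx (e ▸ hv))]
    rfl
  exact Derivation.eqOn_adjoin h2 h1

end loc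

theorem nnn_sq_mul {F H : AlgN N V} (h : NNN H) : NNN (F ^ 2 * H) := by
  intro σ hσ
  rw [map_mul, map_pow]
  exact mul_nonneg (sq_nonneg _) (h σ hσ)

theorem nnn_sum {α : Type} {s : Finset α} {F : α → AlgN N V} (h : ∀ k ∈ s, NNN (F k)) :
    NNN (∑ k ∈ s, F k) := by
  intro σ hσ
  rw [map_sum]
  exact Finset.sum_nonneg fun k hk => h k hk σ hσ

/-- the square of the Hilbert-Schmidt norm -/
def HS (M : MatN N V) : AlgN N V := ∑ i, ∑ j, M i j ^ 2

theorem nnn_HS_mul {M : MatN N V} {H : AlgN N V} (h : NNN H) : NNN (HS M * H) := by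
  intro σ hσ
  unfold HS
  rw [map_mul, map_sum]
  refine mul_nonneg (Finset.sum_nonneg fun i _ => ?_) (h σ hσ)
  rw [map_sum]
  refine Finset.sum_nonneg fun j _ => ?_
  rw [map_pow]
  exact sq_nonneg _

variable [Fintype V] [DecidableEq V]

/-- the product kernel -/
theorem QM_prod (J : V → MatN N V) (u v : V → ℝ) :
    QM J (fun x z => u x * v z) = JM J u * JM J v := by
  unfold QM JM
  rw [Finset.sum_mul_sum]
  refine Finset.sum_congr rfl fun x _ => Finset.sum_congr rfl fun z _ => ?_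
  rw [smul_mul_smul_comm]

theorem QM_sub (J : V → MatN N V) (k k' : V → V → ℝ) :
    QM J (fun x z => k x z - k' x z) = QM J k - QM J k' := by
  unfold QM
  rw [← Finset.sum_sub_distrib]
  refine Finset.sum_congr rfl fun x _ => ?_
  rw [← Finset.sum_sub_distrib]
  refine Finset.sum_congr rfl fun z _ => ?_
  rw [sub_smul]

theorem QM_sum {α : Type} (J : V → MatN N V) (I : Finset α) (k : α → V → V → ℝ) :
    QM J (fun x z => ∑ i ∈ I, k i x z) = ∑ i ∈ I, QM J (k i) := by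
  unfold QM
  simp only [Finset.sum_smul]
  exact (Finset.sum_congr rfl fun x _ => Finset.sum_comm).trans Finset.sum_comm

theorem QM_zero (J : V → MatN N V) : QM J (fun _ _ => 0) = 0 := by
  unfold QM
  simp

theorem JM_apply (J : V → MatN N V) (f : V → ℝ) (i j : Fin N) :
    JM J f i j = ∑ y, f y • J y i j := by
  unfold JM
  rw [Matrix.sum_apply]
  rfl

end alg

section torus

variable {N L : ℕ} [NeZero L]

theorem JM_sup {J : Tor L → MatN N (Tor L)} {ρ r : ℝ}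
    (hJ : ∀ y i j, SupN {x | tnorm (x - y) ≤ ρ} (J y i j)) {p : Tor L} {f : Tor L → ℝ}
    (hf : ∀ x, f x ≠ 0 → tnorm (x - p) ≤ r) (i j : Fin N) :
    SupN {x | tnorm (x - p) ≤ r + ρ} (JM J f i j) := by
  rw [JM_apply]
  refine Subalgebra.sum_mem _ fun y _ => ?_
  by_cases hy : f y = 0
  · rw [hy, zero_smul]
    exact Subalgebra.zero_mem _
  · refine Subalgebra.smul_mem _ (supN_mono (hJ y i j) fun x hx => ?_) _
    have h1 := tnorm_add_le (x - y) (y - p)
    rw [sub_add_sub_cancel] at h1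
    have h2 : tnorm (x - y) ≤ ρ := hx
    have h3 := hf y hy
    show tnorm (x - p) ≤ r + ρ
    linarith

/-- the term of a pair -/
def TT (J : Tor L → MatN N (Tor L)) (f : Tor L → ℝ) (r : ℝ) (P : Tor L × Tor L) :
    MatN N (Tor L) :=
  JM J (th r P.1) * JM J (fun x => (f x - f P.1) * th r P.2 x) -
    JM J (fun x => (f x - f P.1) * th r P.1 x) * JM J (th r P.2)

theorem TT_eq (J : Tor L → MatN N (Tor L)) (f : Tor L → ℝ) (r : ℝ) (P : Tor L × Tor L) :
    TT J f r P = QM J (fun x z => (f z - f x) * (th r P.1 x * th r P.2 z)) := by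
  unfold TT
  rw [← QM_prod, ← QM_prod, ← QM_sub]
  congr 1
  funext x z
  ring

theorem diff_eq (J : Tor L → MatN N (Tor L)) (f : Tor L → ℝ) {r R' : ℝ} (hr : 0 < r)
    (a : Tor L) (hf : ∀ x, f x ≠ 0 → tnorm (x - a) ≤ R') :
    QM J (kap f (psi 16 r)) - QM J (kap f (psi 4 r)) = ∑ P ∈ PP r R' a, TT J f r P := by
  rw [← QM_sub]
  have e1 : (fun x z => kap f (psi 16 r) x z - kap f (psi 4 r) x z) = fun x z =>
      ∑ P ∈ (Finset.univ.filter fun P : Tor L × Tor L =>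
      4 * r < tnorm (P.1 - P.2) ∧ tnorm (P.1 - P.2) ≤ 16 * r),
        (f z - f x) * (th r P.1 x * th r P.2 z) := by
    funext x z
    unfold kap
    rw [← mul_sub, psi_sub r hr, Finset.mul_sum]
  rw [e1, QM_sum]
  have e2 : PP r R' a = (Finset.univ.filter fun P : Tor L × Tor L =>
      4 * r < tnorm (P.1 - P.2) ∧ tnorm (P.1 - P.2) ≤ 16 * r).filter fun P =>
      (tnorm (P.1 - a) ≤ R' + 17 * r ∧ tnorm (P.2 - a) ≤ R' + 17 * r) := by
    rw [Finset.filter_filter]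
    rfl
  rw [e2]
  symm
  rw [Finset.sum_filter]
  refine Finset.sum_congr rfl fun P hP => ?_
  obtain ⟨_, h4, h16⟩ := Finset.mem_filter.1 hP
  rw [TT_eq]
  split_ifs with h
  · rfl
  · have e3 : (fun x z => (f z - f x) * (th r P.1 x * th r P.2 z)) = fun _ _ => 0 := by
      funext x z
      by_contra hne
      apply h
      have h1 : th r P.1 x ≠ 0 := fun h0 => hne (by rw [h0]; ring)
      have h2 : th r P.2 z ≠ 0 := fun h0 => hne (by rw [h0]; ring)
      have h3 := th_supp hr _ _ h1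
      have h5 := th_supp hr _ _ h2
      have h6 : f z ≠ 0 ∨ f x ≠ 0 := by
        by_contra hh
        rw [not_or, not_not, not_not] at hh
        exact hne (by rw [hh.1, hh.2]; ring)
      rcases h6 with h6 | h6
      · have h7 := hf z h6
        have h8 := tnorm_add_le (P.2 - z) (z - a)
        rw [sub_add_sub_cancel, tnorm_sub_comm P.2 z] at h8
        have h9 := tnorm_add_le (P.1 - P.2) (P.2 - a)
        rw [sub_add_sub_cancel] at h9
        constructor <;> linarith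
      · have h7 := hf x h6
        have h8 := tnorm_add_le (P.1 - x) (x - a)
        rw [sub_add_sub_cancel, tnorm_sub_comm P.1 x] at h8
        have h9 := tnorm_add_le (P.2 - P.1) (P.1 - a)
        rw [sub_add_sub_cancel, tnorm_sub_comm P.2 P.1] at h9
        constructor <;> linarith
    rw [e3, QM_zero]

/-- the submultiplicativity of the Hilbert-Schmidt norm -/
theorem hs_mul (A B : Matrix (Fin N) (Fin N) ℝ) :
    ∑ i, ∑ j, (∑ k, A i k * B k j) ^ 2 ≤ (∑ i, ∑ k, A i k ^ 2) * ∑ k, ∑ j, B k j ^ 2 := by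
  have h1 : ∀ i j, (∑ k, A i k * B k j) ^ 2 ≤ (∑ k, A i k ^ 2) * ∑ k, B k j ^ 2 :=
    fun i j => Finset.sum_mul_sq_le_sq_mul_sq _ _ _
  refine (Finset.sum_le_sum fun i _ => Finset.sum_le_sum fun j _ => h1 i j).trans (le_of_eq ?_)
  rw [Finset.sum_mul]
  refine Finset.sum_congr rfl fun i _ => ?_
  rw [← Finset.mul_sum]
  congr 1
  exact Finset.sum_comm

section good

variable {ι : Type} [Fintype ι] {G : Gr (Tor L) ι} {β : ℝ} {Λ : Finset (Tor L)}
  {W : WFunN N G β Λ} {J : Tor L → MatN N (Tor L)}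
  {b : Tor L → Fin N → Fin N → DerN N (Tor L)} {ρ l B : ℝ}

theorem W_mono (W : WFunN N G β Λ) {F F' : AlgN N (Tor L)}
    (h : ∀ σ : Tor L × Fin N → ℝ, (∀ x, ∑ i, σ (x, i) ^ 2 ≤ 1) → eval σ F ≤ eval σ F') :
    W.E F ≤ W.E F' := by
  have h1 := W.pos (F' - F) (fun σ hσ => by
    rw [map_sub]
    exact sub_nonneg.2 (h σ hσ))
  rw [map_sub] at h1
  exact sub_nonneg.1 h1

/-- the moment bound with the Hilbert-Schmidt norm -/
theorem mom1 (hG : GoodN W J b ρ l B) {r : ℝ} (hlr : l ≤ r) {a : Tor L}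
    (ha : ∀ x, tnorm (x - a) ≤ 2 * r → x ∈ Λ) {s : ℝ} {f : Tor L → ℝ} (hs : 0 ≤ s)
    (hf : ∀ x, f x ≠ 0 → tnorm (x - a) ≤ r) (hl : ∀ x y, |f x - f y| ≤ s / r * tnorm (x - y))
    {H : AlgN N (Tor L)} (hH : LocN {x | 2 * r < tnorm (x - a)} H) (hN : NNN H) :
    W.E (HS (JM J f) * H) ≤ s ^ 2 * (B * ((N : ℝ) - 2) ^ 2) * W.E H := by
  have h1 := hG.mom r hlr a ha s f hs hf hl H hH hN
  unfold HS
  rw [Finset.sum_mul, map_sum]
  refine le_trans (le_of_eq ?_) h1
  refine Finset.sum_congr rfl fun i _ => ?_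
  rw [Finset.sum_mul, map_sum]

/-- the factor at `p` is isolated -/
theorem ortho (hG : GoodN W J b ρ l B) {r : ℝ} {p : Tor L} {u : Tor L → ℝ}
    (hu : ∀ x, u x ≠ 0 → tnorm (x - p) ≤ r) (hΛ : ∀ x, tnorm (x - p) ≤ r + ρ → x ∈ Λ)
    {F : AlgN N (Tor L)} (hF : LocN {x | r + ρ < tnorm (x - p)} F) (i j : Fin N) :
    W.E (JM J u i j * F) = 0 := by
  rw [JM_apply, Finset.sum_mul, map_sum]
  refine Finset.sum_eq_zero fun y _ => ?_
  rw [smul_mul_assoc, map_smul]
  by_cases hy : u y = 0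
  · rw [hy, zero_smul]
  · have hy' := hu y hy
    have h1 : W.E (b y i j F) = W.E (J y i j * F) := by
      refine hG.ibp y (fun x hx => hΛ x ?_) i j F
      have h1 := tnorm_add_le (x - y) (y - p)
      rw [sub_add_sub_cancel] at h1
      linarith
    have h2 : b y i j F = 0 := by
      refine hG.loc y i j F _ hF (fun x hx => ?_)
      have h1 := tnorm_add_le (x - y) (y - p)
      rw [sub_add_sub_cancel] at h1
      have h3 : r + ρ < tnorm (x - p) := hx
      linarith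
    rw [← h1, h2, map_zero, smul_zero]

/-- two separated factors -/
theorem mom2 (hG : GoodN W J b ρ l B) {r R' : ℝ} (hlr : l ≤ r) (hr : 1 ≤ r) (hρr : 2 * ρ ≤ r)
    (hB : 0 ≤ B) (hR : 20 * r ≤ R')
    {a : Tor L} (ha : ∀ x, tnorm (x - a) ≤ 2 * R' → x ∈ Λ)
    {p q : Tor L} (hpq : 4 * r < tnorm (p - q)) (hp : tnorm (p - a) ≤ R' + 17 * r)
    (hq : tnorm (q - a) ≤ R' + 17 * r) {su sv : ℝ} {u v : Tor L → ℝ} (hsu : 0 ≤ su) (hsv : 0 ≤ sv)
    (hu : ∀ x, u x ≠ 0 → tnorm (x - p) ≤ r) (hv : ∀ x, v x ≠ 0 → tnorm (x - q) ≤ r)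
    (hlu : ∀ x y, |u x - u y| ≤ su / r * tnorm (x - y))
    (hlv : ∀ x y, |v x - v y| ≤ sv / r * tnorm (x - y))
    {H : AlgN N (Tor L)} (hH : LocN {x | 2 * R' < tnorm (x - a)} H) (hN : NNN H) :
    W.E (HS (JM J u) * (HS (JM J v) * H)) ≤
      su ^ 2 * (B * ((N : ℝ) - 2) ^ 2) * (sv ^ 2 * (B * ((N : ℝ) - 2) ^ 2) * W.E H) := by
  have hHx : ∀ z : Tor L, tnorm (z - a) ≤ R' + 17 * r → LocN {x | 2 * r < tnorm (x - z)} H := by
    intro z hz
    refine locN_mono hH fun x hx => ?_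
    have h1 := tnorm_add_le (x - z) (z - a)
    rw [sub_add_sub_cancel] at h1
    have h2 : 2 * R' < tnorm (x - a) := hx
    show 2 * r < tnorm (x - z)
    linarith
  have hΛx : ∀ z : Tor L, tnorm (z - a) ≤ R' + 17 * r → ∀ x, tnorm (x - z) ≤ 2 * r → x ∈ Λ := by
    intro z hz x hx
    refine ha x ?_
    have h1 := tnorm_add_le (x - z) (z - a)
    rw [sub_add_sub_cancel] at h1
    linarith
  have hv1 : ∀ i j, LocN {x | 2 * r < tnorm (x - p)} (JM J v i j) := by
    intro i j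
    refine locN_mono (supN_loc (JM_sup hG.sup hv i j)) fun x hx => ?_
    have h1 : tnorm (x - q) ≤ r + ρ := hx
    have h2 := tnorm_add_le (p - x) (x - q)
    rw [sub_add_sub_cancel, tnorm_sub_comm p x] at h2
    show 2 * r < tnorm (x - p)
    linarith
  have hloc : LocN {x | 2 * r < tnorm (x - p)} (HS (JM J v) * H) := by
    refine locN_mul (locN_sum fun i _ => locN_sum fun j _ => ?_) (hHx p hp)
    rw [pow_two]
    exact locN_mul (hv1 i j) (hv1 i j)
  have h1 := mom1 hG hlr (hΛx p hp) hsu hu hlu hloc (nnn_HS_mul hN)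
  have h2 := mom1 hG hlr (hΛx q hq) hsv hv hlv (hHx q hq) hN
  exact h1.trans (mul_le_mul_of_nonneg_left h2 (by positivity))

theorem TT_mom (hG : GoodN W J b ρ l B) {r R' s : ℝ} (hlr : l ≤ r) (hr : 1 ≤ r)
    (hρr : 2 * ρ ≤ r) (hB : 0 ≤ B) (hR : 20 * r ≤ R') (hs : 0 ≤ s)
    {a : Tor L} (ha : ∀ x, tnorm (x - a) ≤ 2 * R' → x ∈ Λ) {f : Tor L → ℝ}
    (hl : ∀ x y, |f x - f y| ≤ s / R' * tnorm (x - y))
    {H : AlgN N (Tor L)} (hH : LocN {x | 2 * R' < tnorm (x - a)} H) (hN : NNN H)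
    {P : Tor L × Tor L} (hP : P ∈ PP r R' a) :
    W.E (HS (TT J f r P) * H) ≤
      4 * ((1 / cst L r) ^ 2 * (B * ((N : ℝ) - 2) ^ 2) *
        ((18 * s * r / (R' * cst L r)) ^ 2 * (B * ((N : ℝ) - 2) ^ 2) * W.E H)) := by
  obtain ⟨_, ⟨h4, h16⟩, hp, hq⟩ := Finset.mem_filter.1 hP
  have hr0 : 0 < r := by linarith
  have hR0 : 0 < R' := by linarith
  have hk := cst_pos (L := L) r hr0
  have s1 : 0 ≤ 1 / cst L r := by positivity
  have s2 : 0 ≤ 18 * s * r / (R' * cst L r) := by positivity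
  have m1 := mom2 hG hlr hr hρr hB hR ha h4 hp hq s1 s2 (fun x h => th_supp hr0 P.1 x h)
    (fun x h => fth_supp hr0 f P.1 P.2 x h) (th_lip hr0 P.1) (fth_lip hr0 hR0 hs hl h16) hH hN
  have h0 : tnorm (P.1 - P.1) ≤ 16 * r := by
    rw [sub_self, tnorm_zero]
    positivity
  have m2 := mom2 hG hlr hr hρr hB hR ha h4 hp hq s2 s1
    (fun x h => fth_supp hr0 f P.1 P.1 x h) (fun x h => th_supp hr0 P.2 x h)
    (fth_lip hr0 hR0 hs hl h0) (th_lip hr0 P.2) hH hN
  have m3 : W.E (HS (TT J f r P) * H) ≤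
      W.E ((2 : ℝ) • (HS (JM J (th r P.1)) *
          (HS (JM J (fun x => (f x - f P.1) * th r P.2 x)) * H)) +
        (2 : ℝ) • (HS (JM J (fun x => (f x - f P.1) * th r P.1 x)) *
          (HS (JM J (th r P.2)) * H))) := by
    refine W_mono W fun σ hσ => ?_
    have hh := hN σ hσ
    have hev : ∀ M : MatN N (Tor L), eval σ (HS M) = ∑ i, ∑ j, (eval σ (M i j)) ^ 2 := by
      intro M
      unfold HS
      simp only [map_sum, map_pow]
    simp only [map_mul, map_add, smul_eval]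
    rw [hev, hev, hev, hev, hev]
    have hT : ∀ i j, eval σ (TT J f r P i j) =
        (∑ k, eval σ (JM J (th r P.1) i k) *
          eval σ (JM J (fun x => (f x - f P.1) * th r P.2 x) k j)) -
        ∑ k, eval σ (JM J (fun x => (f x - f P.1) * th r P.1 x) i k) *
          eval σ (JM J (th r P.2) k j) := by
      intro i j
      unfold TT
      rw [Matrix.sub_apply, Matrix.mul_apply, Matrix.mul_apply, map_sub, map_sum, map_sum]
      simp only [map_mul]
    have a1 := hs_mul (fun i k => eval σ (JM J (th r P.1) i k))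
      (fun k j => eval σ (JM J (fun x => (f x - f P.1) * th r P.2 x) k j))
    have a2 := hs_mul (fun i k => eval σ (JM J (fun x => (f x - f P.1) * th r P.1 x) i k))
      (fun k j => eval σ (JM J (th r P.2) k j))
    have a3 : ∑ i, ∑ j, eval σ (TT J f r P i j) ^ 2 ≤
        2 * (∑ i, ∑ j, (∑ k, eval σ (JM J (th r P.1) i k) *
          eval σ (JM J (fun x => (f x - f P.1) * th r P.2 x) k j)) ^ 2) +
        2 * ∑ i, ∑ j, (∑ k, eval σ (JM J (fun x => (f x - f P.1) * th r P.1 x) i k) *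
          eval σ (JM J (th r P.2) k j)) ^ 2 := by
      rw [Finset.mul_sum, Finset.mul_sum, ← Finset.sum_add_distrib]
      refine Finset.sum_le_sum fun i _ => ?_
      rw [Finset.mul_sum, Finset.mul_sum, ← Finset.sum_add_distrib]
      refine Finset.sum_le_sum fun j _ => ?_
      rw [hT]
      nlinarith [sq_nonneg ((∑ k, eval σ (JM J (th r P.1) i k) *
          eval σ (JM J (fun x => (f x - f P.1) * th r P.2 x) k j)) +
        ∑ k, eval σ (JM J (fun x => (f x - f P.1) * th r P.1 x) i k) *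
          eval σ (JM J (th r P.2) k j))]
    have a4 := mul_le_mul_of_nonneg_right (a3.trans (add_le_add
      (mul_le_mul_of_nonneg_left a1 (by norm_num)) (mul_le_mul_of_nonneg_left a2 (by norm_num)))) hh
    refine a4.trans (le_of_eq ?_)
    ring
  rw [map_add, map_smul, map_smul, smul_eq_mul, smul_eq_mul] at m3
  calc W.E (HS (TT J f r P) * H) ≤ _ := m3
    _ ≤ 2 * ((1 / cst L r) ^ 2 * (B * ((N : ℝ) - 2) ^ 2) *
          ((18 * s * r / (R' * cst L r)) ^ 2 * (B * ((N : ℝ) - 2) ^ 2) * W.E H)) +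
        2 * ((18 * s * r / (R' * cst L r)) ^ 2 * (B * ((N : ℝ) - 2) ^ 2) *
          ((1 / cst L r) ^ 2 * (B * ((N : ℝ) - 2) ^ 2) * W.E H)) := by
      gcongr
    _ = _ := by ring

theorem HS_E (W : WFunN N G β Λ) (M : MatN N (Tor L)) (H : AlgN N (Tor L)) :
    W.E (HS M * H) = ∑ i, ∑ j, W.E (M i j ^ 2 * H) := by
  unfold HS
  rw [Finset.sum_mul, map_sum]
  refine Finset.sum_congr rfl fun i _ => ?_
  rw [Finset.sum_mul, map_sum]

theorem TT_cross (hG : GoodN W J b ρ l B) {r R' s : ℝ} (hlr : l ≤ r) (hr : 1 ≤ r)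
    (hρr : 2 * ρ ≤ r) (hB : 0 ≤ B) (hR : 20 * r ≤ R') (hs : 0 ≤ s)
    {a : Tor L} (ha : ∀ x, tnorm (x - a) ≤ 2 * R' → x ∈ Λ) {f : Tor L → ℝ}
    (hl : ∀ x y, |f x - f y| ≤ s / R' * tnorm (x - y))
    {H : AlgN N (Tor L)} (hH : LocN {x | 2 * R' < tnorm (x - a)} H) (hN : NNN H)
    {P Q : Tor L × Tor L} (hP : P ∈ PP r R' a) (hQ : Q ∈ PP r R' a) :
    ∑ i, ∑ j, W.E (TT J f r P i j * (TT J f r Q i j * H)) ≤
      4 * ((1 / cst L r) ^ 2 * (B * ((N : ℝ) - 2) ^ 2) *
        ((18 * s * r / (R' * cst L r)) ^ 2 * (B * ((N : ℝ) - 2) ^ 2) * W.E H)) := by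
  have m1 := TT_mom hG hlr hr hρr hB hR hs ha hl hH hN hP
  have m2 := TT_mom hG hlr hr hρr hB hR hs ha hl hH hN hQ
  rw [HS_E] at m1 m2
  have m3 : ∀ i j, W.E (TT J f r P i j * (TT J f r Q i j * H)) ≤
      1 / 2 * W.E (TT J f r P i j ^ 2 * H) + 1 / 2 * W.E (TT J f r Q i j ^ 2 * H) := by
    intro i j
    have m4 : W.E (TT J f r P i j * (TT J f r Q i j * H)) ≤
        W.E ((1 / 2 : ℝ) • (TT J f r P i j ^ 2 * H) + (1 / 2 : ℝ) • (TT J f r Q i j ^ 2 * H)) := by
      refine W_mono W fun σ hσ => ?_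
      have hh := hN σ hσ
      simp only [map_mul, map_pow, map_add, smul_eval]
      nlinarith [mul_nonneg (sq_nonneg (eval σ (TT J f r P i j) - eval σ (TT J f r Q i j))) hh]
    rwa [map_add, map_smul, map_smul, smul_eq_mul, smul_eq_mul] at m4
  have m5 : ∑ i, ∑ j, W.E (TT J f r P i j * (TT J f r Q i j * H)) ≤
      1 / 2 * (∑ i, ∑ j, W.E (TT J f r P i j ^ 2 * H)) +
        1 / 2 * ∑ i, ∑ j, W.E (TT J f r Q i j ^ 2 * H) := by
    rw [Finset.mul_sum, Finset.mul_sum, ← Finset.sum_add_distrib]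
    refine Finset.sum_le_sum fun i _ => ?_
    rw [Finset.mul_sum, Finset.mul_sum, ← Finset.sum_add_distrib]
    exact Finset.sum_le_sum fun j _ => m3 i j
  linarith

theorem TT_ortho (hG : GoodN W J b ρ l B) {r R' : ℝ} (hr : 1 ≤ r)
    (hρr : 2 * ρ ≤ r) (hR : 20 * r ≤ R')
    {a : Tor L} (ha : ∀ x, tnorm (x - a) ≤ 2 * R' → x ∈ Λ) {f : Tor L → ℝ}
    {H : AlgN N (Tor L)} (hH : LocN {x | 2 * R' < tnorm (x - a)} H)
    {P Q : Tor L × Tor L} (hP : P ∈ PP r R' a)
    (h1 : 3 * r < tnorm (Q.1 - P.1)) (h2 : 3 * r < tnorm (Q.2 - P.1)) (i j : Fin N) :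
    W.E (TT J f r P i j * (TT J f r Q i j * H)) = 0 := by
  obtain ⟨_, ⟨h4, h16⟩, hp, hq⟩ := Finset.mem_filter.1 hP
  have hr0 : 0 < r := by linarith
  -- locality of the factors
  have hΛ : ∀ x, tnorm (x - P.1) ≤ r + ρ → x ∈ Λ := by
    intro x hx
    refine ha x ?_
    have h1 := tnorm_add_le (x - P.1) (P.1 - a)
    rw [sub_add_sub_cancel] at h1
    linarith
  have hH' : LocN {x | r + ρ < tnorm (x - P.1)} H := by
    refine locN_mono hH fun x hx => ?_
    have h1 := tnorm_add_le (x - P.1) (P.1 - a)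
    rw [sub_add_sub_cancel] at h1
    have h2 : 2 * R' < tnorm (x - a) := hx
    show r + ρ < tnorm (x - P.1)
    linarith
  have far : ∀ z : Tor L, 3 * r < tnorm (z - P.1) → ∀ (v : Tor L → ℝ),
      (∀ x, v x ≠ 0 → tnorm (x - z) ≤ r) → ∀ i k,
        LocN {x | r + ρ < tnorm (x - P.1)} (JM J v i k) := by
    intro z hz v hv i k
    refine locN_mono (supN_loc (JM_sup hG.sup hv i k)) fun x hx => ?_
    have h1 : tnorm (x - z) ≤ r + ρ := hx
    have h2 := tnorm_add_le (z - x) (x - P.1)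
    rw [sub_add_sub_cancel, tnorm_sub_comm z x] at h2
    show r + ρ < tnorm (x - P.1)
    linarith
  have hTQ : LocN {x | r + ρ < tnorm (x - P.1)} (TT J f r Q i j) := by
    unfold TT
    rw [Matrix.sub_apply, Matrix.mul_apply, Matrix.mul_apply]
    refine locN_sub (locN_sum fun k _ => locN_mul ?_ ?_) (locN_sum fun k _ => locN_mul ?_ ?_)
    · exact far Q.1 h1 _ (fun x h => th_supp hr0 Q.1 x h) _ _
    · exact far Q.2 h2 _ (fun x h => fth_supp hr0 f Q.1 Q.2 x h) _ _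
    · exact far Q.1 h1 _ (fun x h => fth_supp hr0 f Q.1 Q.1 x h) _ _
    · exact far Q.2 h2 _ (fun x h => th_supp hr0 Q.2 x h) _ _
  have h5 : 3 * r < tnorm (P.2 - P.1) := by
    rw [tnorm_sub_comm]
    linarith
  have e : TT J f r P i j * (TT J f r Q i j * H) =
      (∑ k, JM J (th r P.1) i k * (JM J (fun x => (f x - f P.1) * th r P.2 x) k j *
        (TT J f r Q i j * H))) -
      ∑ k, JM J (fun x => (f x - f P.1) * th r P.1 x) i k * (JM J (th r P.2) k j *
        (TT J f r Q i j * H)) := by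
    conv_lhs => rw [TT, Matrix.sub_apply, Matrix.mul_apply, Matrix.mul_apply, sub_mul,
      Finset.sum_mul, Finset.sum_mul]
    congr 1 <;> exact Finset.sum_congr rfl fun k _ => mul_assoc _ _ _
  rw [e, map_sub, map_sum, map_sum]
  rw [Finset.sum_eq_zero fun k _ => ortho hG (fun x h => th_supp hr0 P.1 x h) hΛ
    (locN_mul (far P.2 h5 _ (fun x h => fth_supp hr0 f P.1 P.2 x h) k j) (locN_mul hTQ hH')) i k,
    Finset.sum_eq_zero fun k _ => ortho hG (fun x h => fth_supp hr0 f P.1 P.1 x h) hΛ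
    (locN_mul (far P.2 h5 _ (fun x h => th_supp hr0 P.2 x h) k j) (locN_mul hTQ hH')) i k, sub_zero]

end good

end torus

theorem diff : Pool.Agent.H970.RN.S_diff := by
  obtain ⟨K, hK, hcard⟩ := card_ball_le
  obtain ⟨k0, hk0, hcst⟩ := cst_ge
  refine ⟨4 + 1156 * 9248 * 1296 * K ^ 4 / k0 ^ 4, by
    have : 0 ≤ 1156 * 9248 * 1296 * K ^ 4 / k0 ^ 4 := by positivity
    linarith, ?_⟩
  intro N hN3 L _ ι _ G β Λ W J b ρ l B r hG hρ hρr hlr hr hB hrL R' s hR hs a ha f hf hl H hH hN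
  have hr0 : 0 < r := by linarith
  have hR0 : 0 < R' := by linarith
  have hκ := cst_pos (L := L) r hr0
  have hEH : 0 ≤ W.E H := W.pos H hN
  obtain ⟨B', hB'⟩ : ∃ B' : ℝ, B' = B * ((N : ℝ) - 2) ^ 2 := ⟨_, rfl⟩
  have hB0 : 0 ≤ B' := by rw [hB']; positivity
  set M : ℝ := 4 * ((1 / cst L r) ^ 2 * B' * ((18 * s * r / (R' * cst L r)) ^ 2 * B' * W.E H))
    with hM
  have hM0 : 0 ≤ M := by positivity
  -- cardinalities
  have c1 : ((bl a (R' + 17 * r)).card : ℝ) ≤ 4 * K * R' ^ 2 := by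
    refine (hcard L a (R' + 17 * r) (by positivity)).trans ?_
    have : (1 + (R' + 17 * r)) ^ 2 ≤ (2 * R') ^ 2 := pow_le_pow_left₀ (by positivity) (by linarith) 2
    calc K * (1 + (R' + 17 * r)) ^ 2 ≤ K * (2 * R') ^ 2 := by gcongr
      _ = 4 * K * R' ^ 2 := by ring
  have c2 : ((bl (0 : Tor L) (16 * r)).card : ℝ) ≤ 289 * K * r ^ 2 := by
    refine (hcard L 0 (16 * r) (by positivity)).trans ?_
    have : (1 + 16 * r) ^ 2 ≤ (17 * r) ^ 2 := pow_le_pow_left₀ (by positivity) (by linarith) 2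
    calc K * (1 + 16 * r) ^ 2 ≤ K * (17 * r) ^ 2 := by gcongr
      _ = 289 * K * r ^ 2 := by ring
  have c3 : ∀ p : Tor L, ((bl p (3 * r)).card : ℝ) ≤ 16 * K * r ^ 2 := by
    intro p
    refine (hcard L p (3 * r) (by positivity)).trans ?_
    have : (1 + 3 * r) ^ 2 ≤ (4 * r) ^ 2 := pow_le_pow_left₀ (by positivity) (by linarith) 2
    calc K * (1 + 3 * r) ^ 2 ≤ K * (4 * r) ^ 2 := by gcongr
      _ = 16 * K * r ^ 2 := by ring
  have d1 : ((PP r R' a).card : ℝ) ≤ 1156 * K ^ 2 * R' ^ 2 * r ^ 2 := by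
    have h1 : ((PP r R' a).card : ℝ) ≤
        ((bl a (R' + 17 * r)).card : ℝ) * ((bl (0 : Tor L) (16 * r)).card : ℝ) := by
      exact_mod_cast card_PP r R' a
    calc ((PP r R' a).card : ℝ) ≤ _ := h1
      _ ≤ (4 * K * R' ^ 2) * (289 * K * r ^ 2) := by gcongr
      _ = _ := by ring
  have d2 : ∀ p : Tor L, ((NP r R' a p).card : ℝ) ≤ 9248 * K ^ 2 * r ^ 4 := by
    intro p
    have h1 : ((NP r R' a p).card : ℝ) ≤
        2 * (((bl p (3 * r)).card : ℝ) * ((bl (0 : Tor L) (16 * r)).card : ℝ)) := by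
      exact_mod_cast card_NP r R' a p
    have h3 := c3 p
    calc ((NP r R' a p).card : ℝ) ≤ _ := h1
      _ ≤ 2 * ((16 * K * r ^ 2) * (289 * K * r ^ 2)) := by gcongr
      _ = _ := by ring
  -- the moment bound
  have hMle : M ≤ 1296 * s ^ 2 * B' ^ 2 * W.E H / (k0 ^ 4 * R' ^ 2 * r ^ 6) := by
    have e : M = 1296 * s ^ 2 * r ^ 2 * B' ^ 2 * W.E H / (R' ^ 2 * cst L r ^ 4) := by
      rw [hM]
      field_simp
      ring
    rw [e, div_le_div_iff₀ (by positivity) (by positivity)]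
    have h1 : (k0 * r ^ 2) ^ 4 ≤ cst L r ^ 4 :=
      pow_le_pow_left₀ (by positivity) (hcst L r hr hrL) 4
    calc 1296 * s ^ 2 * r ^ 2 * B' ^ 2 * W.E H * (k0 ^ 4 * R' ^ 2 * r ^ 6)
        = 1296 * s ^ 2 * B' ^ 2 * W.E H * (R' ^ 2 * (k0 * r ^ 2) ^ 4) := by ring
      _ ≤ 1296 * s ^ 2 * B' ^ 2 * W.E H * (R' ^ 2 * cst L r ^ 4) := by gcongr
  -- the sum over the entries
  have e0 : ∀ i j, (QM J (kap f (psi 16 r)) i j - QM J (kap f (psi 4 r)) i j) =
      ∑ P ∈ PP r R' a, TT J f r P i j := by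
    intro i j
    rw [← Matrix.sub_apply, diff_eq J f hr0 a hf, Matrix.sum_apply]
  have e1 : ∀ i j, W.E ((QM J (kap f (psi 16 r)) i j - QM J (kap f (psi 4 r)) i j) ^ 2 * H) =
      ∑ P ∈ PP r R' a, ∑ Q ∈ PP r R' a, W.E (TT J f r P i j * (TT J f r Q i j * H)) := by
    intro i j
    rw [e0]
    have e2 : (∑ P ∈ PP r R' a, TT J f r P i j) ^ 2 * H =
        ∑ P ∈ PP r R' a, ∑ Q ∈ PP r R' a, TT J f r P i j * (TT J f r Q i j * H) := by
      rw [pow_two, Finset.sum_mul_sum, Finset.sum_mul]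
      refine Finset.sum_congr rfl fun P _ => ?_
      rw [Finset.sum_mul]
      refine Finset.sum_congr rfl fun Q _ => ?_
      ring
    rw [e2, map_sum]
    refine Finset.sum_congr rfl fun P _ => ?_
    rw [map_sum]
  have e3 : ∑ i, ∑ j, W.E ((QM J (kap f (psi 16 r)) i j - QM J (kap f (psi 4 r)) i j) ^ 2 * H) =
      ∑ P ∈ PP r R' a, ∑ Q ∈ PP r R' a,
        ∑ i, ∑ j, W.E (TT J f r P i j * (TT J f r Q i j * H)) := by
    have e4 : ∀ (F : Fin N → Fin N → (Tor L × Tor L) → (Tor L × Tor L) → ℝ),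
        ∑ i, ∑ j, ∑ P ∈ PP r R' a, ∑ Q ∈ PP r R' a, F i j P Q =
        ∑ P ∈ PP r R' a, ∑ Q ∈ PP r R' a, ∑ i, ∑ j, F i j P Q := by
      intro F
      have e5 : ∀ i, ∑ j, ∑ P ∈ PP r R' a, ∑ Q ∈ PP r R' a, F i j P Q =
          ∑ P ∈ PP r R' a, ∑ Q ∈ PP r R' a, ∑ j, F i j P Q := by
        intro i
        rw [Finset.sum_comm]
        exact Finset.sum_congr rfl fun P _ => Finset.sum_comm
      rw [Finset.sum_congr rfl fun i _ => e5 i, Finset.sum_comm]
      exact Finset.sum_congr rfl fun P _ => Finset.sum_comm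
    rw [← e4]
    exact Finset.sum_congr rfl fun i _ => Finset.sum_congr rfl fun j _ => e1 i j
  rw [e3, ← hB']
  have e4 : ∀ P ∈ PP r R' a, ∑ Q ∈ PP r R' a,
      ∑ i, ∑ j, W.E (TT J f r P i j * (TT J f r Q i j * H)) ≤ (9248 * K ^ 2 * r ^ 4) * M := by
    intro P hP
    have e5 : ∑ Q ∈ PP r R' a, ∑ i, ∑ j, W.E (TT J f r P i j * (TT J f r Q i j * H)) =
        ∑ Q ∈ NP r R' a P.1, ∑ i, ∑ j, W.E (TT J f r P i j * (TT J f r Q i j * H)) := by
      unfold NP
      rw [Finset.sum_filter]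
      refine Finset.sum_congr rfl fun Q hQ => ?_
      split_ifs with h
      · rfl
      · rw [not_or, not_le, not_le] at h
        exact Finset.sum_eq_zero fun i _ => Finset.sum_eq_zero fun j _ =>
          TT_ortho hG hr hρr hR ha hH hP h.1 h.2 i j
    rw [e5]
    refine (Finset.sum_le_card_nsmul _ _ M fun Q hQ => ?_).trans ?_
    · have := TT_cross hG hlr hr hρr hB hR hs ha hl hH hN hP (Finset.mem_filter.1 hQ).1
      rw [← hB'] at this
      exact this
    · rw [nsmul_eq_mul]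
      exact mul_le_mul_of_nonneg_right (d2 P.1) hM0
  refine (Finset.sum_le_card_nsmul _ _ _ e4).trans ?_
  rw [nsmul_eq_mul]
  calc ((PP r R' a).card : ℝ) * (9248 * K ^ 2 * r ^ 4 * M)
      ≤ (1156 * K ^ 2 * R' ^ 2 * r ^ 2) * (9248 * K ^ 2 * r ^ 4 *
        (1296 * s ^ 2 * B' ^ 2 * W.E H / (k0 ^ 4 * R' ^ 2 * r ^ 6))) := by gcongr
    _ = s ^ 2 * ((1156 * 9248 * 1296 * K ^ 4 / k0 ^ 4) * B' ^ 2) * W.E H := by
      field_simp
    _ ≤ s ^ 2 * ((4 + 1156 * 9248 * 1296 * K ^ 4 / k0 ^ 4) * B' ^ 2) * W.E H := by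
      gcongr
      linarith

end Pool.Agent.H97.RN
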